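import Mathlib
import Pool.Agent.W487.T.Final

/-!
Tame p-adic Tate twists, weight `n = 0`, `r = 1`, `p = 2` (problem MP_54f350_ag, question (a)).

For the discrete valuation ring `A` of two-adic integers and an explicit smooth `A`-algebra `B`
(a smooth affine curve over `A`), let `Y = Spec (B / π B)` be the special fibre.  In weight zero
the sheaf `i^* 𝔗^t_1(0)` on the tame site of `Y` over `S = Spec A` is the constant sheaf `Z/2`.
The theorem says that its second higher direct image under the change of topology
`β` from the tame site to the Nisnevich site of `Y` does not vanish; question (a) predicts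
cohomology sheaves in degrees `0, 1` only.

Definitions (files of the folder `Pool/Agent/W487/T`):
* `W487T.IsTame` (Stm): tamely ramified extensions of valued fields;
* `W487T.SVal`, `SVal.map`, `SVal.IsOver` (SVal): points with a valuation ring of the residue
  field, their images, and `S`-valuations;
* `W487T.TameAt`, `W487T.TameCover`, `W487T.tameTop` (Site): the tame topology on the category
  `Y.Etale` of etale `Y`-schemes;
* `W487T.NisCover`, `W487T.nisTop`, `W487T.beta` (Nis): the Nisnevich topology and the push
  forward `β_*`;
* `W487T.constTwo`, `W487T.RTwo` (Nis): the constant sheaf `Z/2` and `R² β_* (Z/2)`.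
-/

open CategoryTheory Limits AlgebraicGeometry

noncomputable section

namespace Pool.Agent.Results.MP_54f350_ag.TameCohomologyDegreeTwo

/-- the special fibre `Spec (B / π B)` -/
def fibre (A B : Type) [CommRing A] [CommRing B] [Algebra A B] (π : A) : Scheme.{0} :=
  Spec (.of (B ⧸ Ideal.span {algebraMap A B π}))

/-- its structure morphism to `Spec A` -/
def fibreHom (A B : Type) [CommRing A] [CommRing B] [Algebra A B] (π : A) :
    fibre A B π ⟶ Spec (.of A) :=
  Spec.map (CommRingCat.ofHom (algebraMap A (B ⧸ Ideal.span {algebraMap A B π})))

/-- There are a discrete valuation ring `A` of characteristic zero with perfect residue field of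
characteristic two, a uniformiser `π` and a smooth `A`-algebra `B` such that the Nisnevich sheaf
`R² β_* (Z/2)` on the special fibre `Spec (B / π B)` is not zero. -/
theorem result : ∃ (A : Type) (_ : CommRing A) (_ : IsDomain A) (_ : IsDiscreteValuationRing A)
    (π : A) (B : Type) (_ : CommRing B) (_ : Algebra A B),
    CharZero A ∧ CharP (IsLocalRing.ResidueField A) 2 ∧
    PerfectField (IsLocalRing.ResidueField A) ∧ Irreducible π ∧ Algebra.Smooth A B ∧
    ¬ IsZero (W487T.RTwo (fibreHom A B π)) := by
  obtain ⟨B, _, _, hB, h⟩ := W487T.final
  have hfin : Finite (IsLocalRing.ResidueField ℤ_[2]) :=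
    Finite.of_equiv _ (PadicInt.residueField (p := 2)).symm.toEquiv
  have hchar : CharP (IsLocalRing.ResidueField ℤ_[2]) 2 :=
    charP_of_injective_ringHom (f := (PadicInt.residueField (p := 2)).symm.toRingHom)
      (PadicInt.residueField (p := 2)).symm.injective 2
  refine ⟨ℤ_[2], inferInstance, inferInstance, inferInstance, 2, B, inferInstance, inferInstance,
    inferInstance, hchar, inferInstance, PadicInt.irreducible_p, hB, ?_⟩
  have key : ∀ (I : Ideal B), I = Ideal.span {(2 : B)} →
      ¬ IsZero (W487T.RTwo (Spec.map (CommRingCat.ofHom (algebraMap ℤ_[2] (B ⧸ I))))) := by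
    rintro I rfl
    exact h
  exact key _ (by rw [map_ofNat])

end Pool.Agent.Results.MP_54f350_ag.TameCohomologyDegreeTwo
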